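import Pool.Agent.CliqueSharp.Final

set_option autoImplicit false

open Filter
open Pool.Agent.CliqueSharp.Final (S L above)

namespace Pool.Agent.Results.MP_b34c1f_co.Profile

/-- Let `L(n) = (log₂ n)² / log₂ log₂ n`.
For every `c > 1/2` and all large `n`, every integer `N` with `n ≤ N ≤ 2^(n - c L(n))` is in `S n`.
For every `0 < c < 1/2`, the number of elements of `S n` that are at least `2^(n - c L(n))` is
`2^(n - n^(√(1 - 2c) + o(1)))`. -/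
theorem result :
    (∀ c : ℝ, 1 / 2 < c → ∀ᶠ n : ℕ in atTop, ∀ N : ℕ, n ≤ N →
      (N : ℝ) ≤ 2 ^ ((n : ℝ) - c * L n) → N ∈ S n) ∧
    (∀ c : ℝ, 0 < c → c < 1 / 2 → ∀ ε : ℝ, 0 < ε → ∀ᶠ n : ℕ in atTop,
      (2 : ℝ) ^ ((n : ℝ) - (n : ℝ) ^ (√(1 - 2 * c) + ε)) ≤ above n (2 ^ ((n : ℝ) - c * L n)) ∧
      (above n (2 ^ ((n : ℝ) - c * L n)) : ℝ) ≤
        2 ^ ((n : ℝ) - (n : ℝ) ^ (√(1 - 2 * c) - ε))) := by
  refine ⟨fun c hc => ?_, Pool.Agent.CliqueSharp.Final.profile⟩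
  have h := Pool.Agent.CliqueSharp.Final.interval (c - 1 / 2) (by linarith)
  have e : (1 / 2 + (c - 1 / 2) : ℝ) = c := by ring
  rw [e] at h
  exact h

end Pool.Agent.Results.MP_b34c1f_co.Profile
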