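import Pool.Agent.CliqueSharp.Final

set_option autoImplicit false

open Filter Topology
open Pool.Agent.CliqueSharp.Final (F L)

namespace Pool.Agent.Results.MP_b34c1f_co.SharpConstant

/-- With `L(n) = (log₂ n)² / log₂ log₂ n`, the quotient `(n - log₂ F(n)) / L(n)` tends to `1/2`. -/
theorem result :
    Tendsto (fun n : ℕ => ((n : ℝ) - Real.logb 2 (F n)) / L n) atTop (𝓝 (1 / 2)) :=
  Pool.Agent.CliqueSharp.Final.tendsto_F

end Pool.Agent.Results.MP_b34c1f_co.SharpConstant
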