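import Pool.Agent.Helper86.ST.Up
import Pool.Agent.Helper86.ST.LowJ
import Pool.Agent.Helper86.ST.Small

set_option autoImplicit false

open Filter
open Pool.Agent.CliqueSharp.Final (S above)

namespace Pool.Agent.Results.MP_b34c1f_co.Staircase

/-- Let `M(n, A)` be the number of elements of `S n` that are at least `2^n / n^A`.
For `0 < A < 1` one has `log₂ M(n, A) = n^(A + o(1))`.
For an integer `j ≥ 1` and `j < A < j + 1` there is a constant `C` such that for all large `n`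
`n / (C log₂ n log₂ log₂ n)^j ≤ n - log₂ M(n, A) ≤ C n / (log₂ n)^j`. -/
theorem result :
    (∀ A : ℝ, 0 < A → A < 1 → ∀ ε : ℝ, 0 < ε → ∀ᶠ n : ℕ in atTop,
      (2 : ℝ) ^ ((n : ℝ) ^ (A - ε)) ≤ above n ((2 : ℝ) ^ n / (n : ℝ) ^ A) ∧
      (above n ((2 : ℝ) ^ n / (n : ℝ) ^ A) : ℝ) ≤ (2 : ℝ) ^ ((n : ℝ) ^ (A + ε))) ∧
    (∀ (A : ℝ) (j : ℕ), 1 ≤ j → (j : ℝ) < A → A < j + 1 → ∃ C : ℝ, 0 < C ∧
      ∀ᶠ n : ℕ in atTop,
        (2 : ℝ) ^ ((n : ℝ) - C * n / Real.logb 2 n ^ j) ≤ above n ((2 : ℝ) ^ n / (n : ℝ) ^ A) ∧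
        (above n ((2 : ℝ) ^ n / (n : ℝ) ^ A) : ℝ) ≤
          (2 : ℝ) ^ ((n : ℝ) - n / (C * Real.logb 2 n * Real.logb 2 (Real.logb 2 n)) ^ j)) := by
  refine ⟨fun A h0 h1 ε hε => ?_, fun A j hj h1 h2 => ?_⟩
  · exact (Pool.Agent.Helper86.ST.small_low A h0 h1 ε hε).and
      (Pool.Agent.Helper86.ST.small_up A h0 h1 ε hε)
  · obtain ⟨C₁, hC₁, e₁⟩ := Pool.Agent.Helper86.ST.low A j hj h1
    obtain ⟨C₂, hC₂, e₂⟩ := Pool.Agent.Helper86.ST.up A j hj
      (lt_of_le_of_lt (Nat.cast_nonneg _) h1) h2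
    have hll : Tendsto (fun n : ℕ => Real.logb 2 (Real.logb 2 (n : ℝ))) atTop atTop :=
      (Real.tendsto_logb_atTop (by norm_num)).comp
        ((Real.tendsto_logb_atTop (by norm_num)).comp tendsto_natCast_atTop_atTop)
    have hl : Tendsto (fun n : ℕ => Real.logb 2 (n : ℝ)) atTop atTop :=
      (Real.tendsto_logb_atTop (by norm_num)).comp tendsto_natCast_atTop_atTop
    refine ⟨max C₁ C₂, lt_max_of_lt_left hC₁, ?_⟩
    filter_upwards [e₁, e₂, hll.eventually_ge_atTop 1, hl.eventually_ge_atTop 1] with n f₁ f₂ g₁ g₂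
    constructor
    · refine le_trans (Real.rpow_le_rpow_of_exponent_le (by norm_num) ?_) f₁
      have h3 : C₁ * n / Real.logb 2 n ^ j ≤ max C₁ C₂ * n / Real.logb 2 n ^ j := by
        gcongr
        exact le_max_left _ _
      linarith
    · refine f₂.trans (Real.rpow_le_rpow_of_exponent_le (by norm_num) ?_)
      have h3 : (n : ℝ) / (max C₁ C₂ * Real.logb 2 n * Real.logb 2 (Real.logb 2 n)) ^ j ≤
          n / (C₂ * Real.logb 2 n * Real.logb 2 (Real.logb 2 n)) ^ j := by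
        have : 0 < Real.logb 2 (n : ℝ) := by linarith
        have : 0 < Real.logb 2 (Real.logb 2 (n : ℝ)) := by linarith
        gcongr
        exact le_max_right _ _
      linarith

end Pool.Agent.Results.MP_b34c1f_co.Staircase
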