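import Pool.Agent.Helper86.TQ.Top
import Pool.Agent.Helper86.TQ.Cnt

set_option autoImplicit false

open Pool.Agent.CliqueSharp.Final (S)

namespace Pool.Agent.Results.MP_b34c1f_co.TopThreeQuarters

/-- For `n ≥ 4` the elements of `S n` which are at least `2 ^ (n - 2)` are `2 ^ (n - 2)` and the
integers `N` for which `N + 1` is `2 ^ (n - 2) + 2 ^ p + 2 ^ q` with `n - 2 ≥ p ≥ q ≥ 0` or
`2 ^ (n - 2) + 2 ^ p + 2 ^ q + 2 ^ r` with `n - 2 ≥ p ≥ q ≥ r ≥ 0` and `p + q ≤ r + (n - 2)`.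
Their number is `2 n - 1 + (n - 2) (n - 3) / 2 + ⌊(n - 1) (n - 3) (2 n - 7) / 24⌋`. -/
theorem result (n : ℕ) (hn : 4 ≤ n) :
    (∀ N : ℕ, N ∈ S n ∧ 2 ^ (n - 2) ≤ N ↔
      N = 2 ^ (n - 2) ∨
      (∃ p q : ℕ, q ≤ p ∧ p ≤ n - 2 ∧ N + 1 = 2 ^ (n - 2) + 2 ^ p + 2 ^ q) ∨
      ∃ p q r : ℕ, r ≤ q ∧ q ≤ p ∧ p ≤ n - 2 ∧ p + q ≤ r + (n - 2) ∧
        N + 1 = 2 ^ (n - 2) + 2 ^ p + 2 ^ q + 2 ^ r) ∧
    {N : ℕ | N ∈ S n ∧ 2 ^ (n - 2) ≤ N}.ncard =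
      2 * n - 1 + (n - 2) * (n - 3) / 2 + (n - 1) * (n - 3) * (2 * n - 7) / 24 := by
  refine ⟨fun N => Pool.Agent.Helper86.TQ.top_three_quarters hn N, ?_⟩
  rw [← Pool.Agent.Helper86.TQ.count_forms hn]
  congr 1
  ext N
  exact Pool.Agent.Helper86.TQ.top_three_quarters hn N

end Pool.Agent.Results.MP_b34c1f_co.TopThreeQuarters
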